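import Pool.Agent.Helper89.Vol.Goals

/-! # MP_cd13d2_co : packet V36-SRT (sorting) -/

set_option autoImplicit false

namespace Pool.Agent.Helper13.Vol.PkSRT

theorem thm : Pool.Agent.Helper89.Vol.G_SRT := by
  intro D hA hN hP
  classical
  -- the signs
  obtain ⟨e, he1, he0, hep⟩ : ∃ e : Fin 6 → ℝ, (∀ i, e i = 1 ∨ e i = -1) ∧ e 0 = 1 ∧
      ∀ k, k ≠ 0 → 0 < e k * D 0 k := by
    refine ⟨fun k => if k = 0 then 1 else if 0 < D 0 k then 1 else -1, ?_, ?_, ?_⟩
    · intro i
      by_cases h0 : i = 0
      · left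
        simp [h0]
      · by_cases h1 : 0 < D 0 i
        · left
          simp [h0, h1]
        · right
          simp [h0, h1]
    · simp
    · intro k hk
      by_cases h1 : 0 < D 0 k
      · simp only [hk, if_false, h1, if_true, one_mul]
      · have h2 : D 0 k ≠ 0 := hN 0 k (Ne.symm hk)
        have h3 : D 0 k < 0 := lt_of_le_of_ne (not_lt.mp h1) h2
        simp only [hk, if_false, h1]
        linarith
  have h01 : D 0 1 ≠ 0 := hN 0 1 (by decide)
  -- the parameters
  let t : Fin 6 → ℝ := fun k => D 1 k / (D 0 1 * D 0 k)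
  have key : ∀ j k : Fin 6, j ≠ 0 → k ≠ 0 → D j k = D 0 j * D 0 k * (t k - t j) := by
    intro j k hj hk
    have h1 : D 0 j ≠ 0 := hN 0 j (Ne.symm hj)
    have h2 : D 0 k ≠ 0 := hN 0 k (Ne.symm hk)
    have h3 := hP 0 1 j k
    have e1 : t k = D 1 k / (D 0 1 * D 0 k) := rfl
    have e2 : t j = D 1 j / (D 0 1 * D 0 j) := rfl
    rw [e1, e2]
    field_simp
    linear_combination h3
  let m : ℝ := -(∑ k, |t k|) - 1
  have hm : ∀ k, m < t k := by
    intro k
    have h1 : |t k| ≤ ∑ k, |t k| :=
      Finset.single_le_sum (f := fun k => |t k|) (fun i _ => abs_nonneg _) (Finset.mem_univ k)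
    have h2 : -|t k| ≤ t k := neg_abs_le _
    have h3 : m = -(∑ k, |t k|) - 1 := rfl
    rw [h3]
    linarith
  let T : Fin 6 → ℝ := fun k => if k = 0 then m else t k
  have T0 : T 0 = m := if_pos rfl
  have Tk : ∀ k, k ≠ 0 → T k = t k := fun k hk => if_neg hk
  have hT : Function.Injective T := by
    intro j k hjk
    by_contra hne
    by_cases hj : j = 0
    · have hk : k ≠ 0 := fun h => hne (hj.trans h.symm)
      rw [hj, T0, Tk k hk] at hjk
      exact absurd hjk (hm k).ne
    · by_cases hk : k = 0
      · rw [hk, T0, Tk j hj] at hjk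
        exact absurd hjk.symm (hm j).ne
      · rw [Tk j hj, Tk k hk] at hjk
        have h1 := key j k hj hk
        rw [hjk, sub_self, mul_zero] at h1
        exact hN j k hne h1
  have hpos : ∀ a b : Fin 6, T a < T b → 0 < e a * e b * D a b := by
    intro a b hab
    by_cases hb : b = 0
    · exfalso
      by_cases ha : a = 0
      · rw [ha, hb] at hab
        exact lt_irrefl _ hab
      · rw [hb, T0, Tk a ha] at hab
        exact absurd hab (not_lt.mpr (hm a).le)
    · by_cases ha : a = 0
      · rw [ha, he0, one_mul]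
        exact hep b hb
      · rw [Tk a ha, Tk b hb] at hab
        have h1 := mul_pos (mul_pos (hep a ha) (hep b hb)) (sub_pos.mpr hab)
        have e1 : e a * e b * D a b = e a * D 0 a * (e b * D 0 b) * (t b - t a) := by
          rw [key a b ha hb]
          ring
        rw [e1]
        exact h1
  refine ⟨Tuple.sort T, fun i => e (Tuple.sort T i), fun i => he1 _, ?_⟩
  intro i j hij
  have hs : StrictMono (T ∘ Tuple.sort T) :=
    (Tuple.monotone_sort T).strictMono_of_injective (hT.comp (Equiv.injective _))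
  exact hpos _ _ (hs hij)

end Pool.Agent.Helper13.Vol.PkSRT
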